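import Mathlib

set_option autoImplicit false

namespace Pool.Agent.Results.MP_c39918_co.Reconstruction

open Pointwise

/-- the real Ehrhart function `L_K(s) = #(sK ∩ ℤ^d)` -/
noncomputable def ehrhart {d : ℕ} (K : Set (Fin d → ℝ)) (s : ℝ) : ℕ :=
  Set.ncard {z : Fin d → ℤ | (fun i => (z i : ℝ)) ∈ s • K}

/-- the translate `K + w` by an integer vector -/
def translate {d : ℕ} (K : Set (Fin d → ℝ)) (w : Fin d → ℤ) : Set (Fin d → ℝ) :=
  (fun x => x + fun i => (w i : ℝ)) '' K

/-- a convex body: compact, convex, nonempty interior -/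
def IsConvexBody {d : ℕ} (K : Set (Fin d → ℝ)) : Prop :=
  IsCompact K ∧ Convex ℝ K ∧ (interior K).Nonempty

/-- simultaneous approximation: large real multiples of an integer vector approximate any vector
modulo `ℤ^d` -/
lemma approx : ∀ (d : ℕ) (x : Fin d → ℝ) (ε R : ℝ), 0 < ε →
    ∃ (r : ℝ) (m w : Fin d → ℤ), R < r ∧ ∀ i, |r * m i - w i - x i| < ε
  | 0, x, ε, R, hε => ⟨R + 1, fun _ => 0, fun _ => 0, by linarith, fun i => i.elim0⟩
  | d+1, x, ε, R, hε => by
    obtain ⟨r, m, w, hr, hm⟩ := approx d (fun i => x i.succ) (ε/2) (R+1) (by linarith)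
    obtain ⟨M, hM⟩ := exists_nat_gt (max 1 ((∑ i, |(m i : ℝ)|) / (ε/2)))
    have hM1 : (1:ℝ) < M := lt_of_le_of_lt (le_max_left _ _) hM
    have hM0 : (0:ℝ) < M := by linarith
    have hM2 : (∑ i, |(m i : ℝ)|) < (ε/2) * M := by
      have := lt_of_le_of_lt (le_max_right _ _) hM
      rw [div_lt_iff₀ (by linarith)] at this
      linarith
    set w0 : ℤ := round (r * M - x 0) with hw0
    set r' : ℝ := (w0 + x 0) / M with hr'
    have hdiff : |r' - r| ≤ 1 / M := by
      have h1 : r' - r = (w0 - (r * M - x 0)) / M := by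
        rw [hr']; field_simp; ring
      have h2 := abs_sub_round (r * M - x 0)
      rw [← hw0, abs_sub_comm] at h2
      rw [h1, abs_div, abs_of_pos hM0]
      gcongr
      linarith
    refine ⟨r', Fin.cons (M : ℤ) m, Fin.cons w0 w, ?_, ?_⟩
    · have h3 : 1 / (M:ℝ) < 1 := by rw [div_lt_one hM0]; exact hM1
      have h4 := (abs_le.1 hdiff).1
      linarith
    · intro i
      refine Fin.cases ?_ (fun i => ?_) i
      · simp only [Fin.cons_zero, Int.cast_natCast]
        have h5 : r' * M - w0 - x 0 = 0 := by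
          rw [hr']; field_simp; ring
        rw [h5, abs_zero]; exact hε
      · simp only [Fin.cons_succ]
        have h6 : r' * m i - w i - x i.succ = (r * m i - w i - x i.succ) + (r' - r) * m i := by ring
        rw [h6]
        have h7 : |(r' - r) * (m i : ℝ)| < ε / 2 := by
          rw [abs_mul]
          have h8 : |(m i : ℝ)| ≤ ∑ i, |(m i : ℝ)| :=
            Finset.single_le_sum (f := fun i => |(m i : ℝ)|) (fun i _ => abs_nonneg _)
              (Finset.mem_univ i)
          calc |r' - r| * |(m i : ℝ)| ≤ 1 / M * ∑ i, |(m i : ℝ)| := by gcongr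
            _ < 1 / M * ((ε/2) * M) := by gcongr
            _ = ε / 2 := by field_simp
        calc |(r * m i - w i - x i.succ) + (r' - r) * m i|
            ≤ |r * m i - w i - x i.succ| + |(r' - r) * m i| := abs_add_le _ _
          _ < ε / 2 + ε / 2 := add_lt_add (hm i) h7
          _ = ε := by ring

lemma mem_scaled {d : ℕ} {K : Set (Fin d → ℝ)} {w z : Fin d → ℤ} {r : ℝ} (hr : 0 < r) :
    ((fun i => (z i : ℝ)) ∈ (1 / r) • translate K w) ↔ (fun i => r * z i - w i) ∈ K := by
  constructor
  · rintro ⟨y, ⟨k, hk, rfl⟩, hy⟩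
    have : (fun i => r * z i - w i) = k := by
      funext i
      have h1 := congrFun hy i
      simp only [Pi.smul_apply, Pi.add_apply, smul_eq_mul] at h1
      rw [← h1]
      field_simp
      ring
    rw [this]; exact hk
  · intro h
    refine ⟨_, ⟨_, h, rfl⟩, ?_⟩
    funext i
    simp only [Pi.smul_apply, Pi.add_apply, smul_eq_mul]
    field_simp
    ring

lemma interior_subset_of_eq {d : ℕ} {K H : Set (Fin d → ℝ)} (hK : IsConvexBody K)
    (hH : IsConvexBody H)
    (h : ∀ s : ℝ, 0 < s → ∀ w : Fin d → ℤ, ehrhart (translate K w) s = ehrhart (translate H w) s) :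
    interior K ⊆ H := by
  intro x0 hx0
  by_contra hx0H
  have hopen : IsOpen (interior K ∩ Hᶜ) :=
    isOpen_interior.inter hH.1.isClosed.isOpen_compl
  obtain ⟨ε, hε, hball⟩ := Metric.isOpen_iff.1 hopen x0 ⟨hx0, hx0H⟩
  obtain ⟨R, hR⟩ := (Metric.isBounded_iff.1 (hK.1.isBounded.union hH.1.isBounded))
  obtain ⟨r, m, w, hr, hm⟩ := approx d x0 ε (max R 1) hε
  have hrR : R < r := lt_of_le_of_lt (le_max_left _ _) hr
  have hr1 : 1 < r := lt_of_le_of_lt (le_max_right _ _) hr
  have hr0 : 0 < r := by linarith
  set x' : Fin d → ℝ := fun i => r * m i - w i with hx'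
  have hx'ball : x' ∈ Metric.ball x0 ε := by
    rw [Metric.mem_ball, dist_pi_lt_iff hε]
    intro i
    rw [Real.dist_eq]
    exact hm i
  obtain ⟨hx'K, hx'H⟩ := hball hx'ball
  have hx'K' : x' ∈ K := interior_subset hx'K
  -- points for other integer vectors are far away
  have hfar : ∀ z : Fin d → ℤ, z ≠ m → (fun i => r * z i - w i) ∉ K ∪ H := by
    intro z hz hmem
    have hd := hR (Or.inl hx'K' : x' ∈ K ∪ H) hmem
    obtain ⟨i, hi⟩ : ∃ i, z i ≠ m i := by
      by_contra hcon
      push Not at hcon
      exact hz (funext hcon)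
    have h1 := dist_le_pi_dist x' (fun i => r * z i - w i) i
    have h2 : dist (x' i) (r * z i - w i) = r * |(m i : ℝ) - z i| := by
      rw [Real.dist_eq, hx']
      have : r * (m i : ℝ) - w i - (r * z i - w i) = r * ((m i : ℝ) - z i) := by ring
      rw [this, abs_mul, abs_of_pos hr0]
    have h3 : (1:ℝ) ≤ |(m i : ℝ) - z i| := by
      have h4 : 1 ≤ |m i - z i| := Int.one_le_abs (sub_ne_zero.2 (Ne.symm hi))
      exact_mod_cast h4
    have h5 : r ≤ r * |(m i : ℝ) - z i| := by nlinarith
    rw [h2] at h1
    linarith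
  have hKset : {z : Fin d → ℤ | (fun i => (z i : ℝ)) ∈ (1 / r) • translate K w} = {m} := by
    ext z
    rw [Set.mem_ofPred_eq, mem_scaled hr0, Set.mem_singleton_iff]
    constructor
    · intro hz
      by_contra hne
      exact hfar z hne (Or.inl hz)
    · rintro rfl
      exact hx'K'
  have hHset : {z : Fin d → ℤ | (fun i => (z i : ℝ)) ∈ (1 / r) • translate H w} = ∅ := by
    ext z
    rw [Set.mem_ofPred_eq, mem_scaled hr0]
    constructor
    · intro hz
      by_cases hne : z = m
      · rw [hne] at hz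
        exact absurd hz hx'H
      · exact absurd (Or.inr hz) (hfar z hne)
    · intro hz
      exact absurd hz (Set.notMem_empty z)
  have heq := h (1 / r) (by positivity) w
  unfold ehrhart at heq
  rw [hKset, hHset, Set.ncard_singleton, Set.ncard_empty] at heq
  exact one_ne_zero heq

/-- the real Ehrhart functions of all integer translates determine a convex body -/
theorem result (d : ℕ) (K H : Set (Fin d → ℝ)) (hK : IsConvexBody K) (hH : IsConvexBody H)
    (h : ∀ s : ℝ, 0 < s → ∀ w : Fin d → ℤ,
      ehrhart (translate K w) s = ehrhart (translate H w) s) : K = H := by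
  have key : ∀ A B : Set (Fin d → ℝ), IsConvexBody A → IsConvexBody B →
      interior A ⊆ B → A ⊆ B := by
    intro A B hA hB hsub
    have h1 : closure (interior A) = closure A :=
      hA.2.1.closure_interior_eq_closure_of_nonempty_interior hA.2.2
    calc A ⊆ closure A := subset_closure
      _ = closure (interior A) := h1.symm
      _ ⊆ closure B := closure_mono hsub
      _ = B := hB.1.isClosed.closure_eq
  exact Set.Subset.antisymm (key K H hK hH (interior_subset_of_eq hK hH h))
    (key H K hH hK (interior_subset_of_eq hH hK fun s hs w => (h s hs w).symm))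

end Pool.Agent.Results.MP_c39918_co.Reconstruction
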